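import Pool.Agent.Y748.SR.Stm7
import Pool.Agent.Y748.Tent

/-!
Project SR of helper748, job SR4-PAIR2: the pair correlation in the limit.
-/

open Finset Filter Topology MeasureTheory

set_option autoImplicit false

namespace Pool.Agent.Y606.SR

open Pool.Agent.Y748 Pool.Agent.Y748.SR

lemma tent_eq {α : ℝ} (h : |α| ≤ 1) : tent α = 1 - |α| := by
  unfold tent
  rw [max_eq_right (by linarith)]

lemma abs_le_of_uIcc {α : ℝ} (h : α ∈ Set.uIcc (-1 : ℝ) 1) : |α| ≤ 1 := by
  rw [Set.uIcc_of_le (by norm_num)] at h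
  exact abs_le.2 h

lemma abs_le_of_uIoc {α : ℝ} (h : α ∈ Set.uIoc (-1 : ℝ) 1) : |α| ≤ 1 := by
  rw [Set.uIoc_of_le (by norm_num)] at h
  exact abs_le.2 ⟨h.1.le, h.2⟩

lemma int_tri (f : ℝ → ℝ) :
    ∫ α in (-1 : ℝ)..1, f α * (1 - |α|) = ∫ α : ℝ, tent α * f α := by
  have h1 : ∫ α in (-1 : ℝ)..1, tent α * f α = ∫ α : ℝ, tent α * f α := by
    apply intervalIntegral.integral_eq_integral_of_support_subset
    intro α hα
    by_contra hcon
    exact hα (by simp [tent_supp α hcon])
  rw [← h1]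
  refine intervalIntegral.integral_congr fun α hα => ?_
  simp only [tent_eq (abs_le_of_uIcc hα)]
  ring

lemma int_one : ∫ α in (-1 : ℝ)..1, (1 - |α|) = 1 := by
  have h := int_tri (fun _ => 1)
  simp only [mul_one, one_mul] at h
  rw [h]
  exact tent_int

lemma int_cos (v : ℝ) :
    ∫ α in (-1 : ℝ)..1, Real.cos (2 * Real.pi * v * α) * (1 - |α|) = sn v ^ 2 := by
  rw [int_tri (fun α => Real.cos (2 * Real.pi * v * α)), tent_cos]
  unfold sn
  congr 2
  ring

/-- cutting off with a trapezoid changes little -/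
lemma cutoff (χ h : ℝ → ℝ) (δ B : ℝ) (hχ : Continuous χ) (hh : Continuous h) (hδ : 0 ≤ δ)
    (hB : 0 ≤ B) (h01 : ∀ α, 0 ≤ χ α ∧ χ α ≤ 1) (h1 : ∀ α, |α| ≤ 1 - δ → χ α = 1)
    (hb : ∀ α, |h α| ≤ B) :
    |(∫ α in (-1 : ℝ)..1, h α * χ α * (1 - |α|)) - ∫ α in (-1 : ℝ)..1, h α * (1 - |α|)| ≤
      2 * (B * δ) := by
  rw [← intervalIntegral.integral_sub
    ((by fun_prop : Continuous fun α => h α * χ α * (1 - |α|)).intervalIntegrable _ _)
    ((by fun_prop : Continuous fun α => h α * (1 - |α|)).intervalIntegrable _ _)]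
  have h2 := intervalIntegral.norm_integral_le_of_norm_le_const (a := (-1 : ℝ)) (b := 1)
    (C := B * δ) (f := fun α => h α * χ α * (1 - |α|) - h α * (1 - |α|)) (fun α hα => by
      have ha := abs_le_of_uIoc hα
      rw [Real.norm_eq_abs]
      have e : h α * χ α * (1 - |α|) - h α * (1 - |α|) = h α * ((χ α - 1) * (1 - |α|)) := by ring
      rw [e, abs_mul]
      refine mul_le_mul (hb α) ?_ (abs_nonneg _) hB
      by_cases hc : |α| ≤ 1 - δ
      · rw [h1 α hc, sub_self, zero_mul, abs_zero]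
        exact hδ
      · rw [not_le] at hc
        rw [abs_mul, abs_of_nonneg (by linarith : 0 ≤ 1 - |α|), abs_of_nonpos (by
          linarith [(h01 α).2])]
        have h3 : -(χ α - 1) ≤ 1 := by linarith [(h01 α).1]
        nlinarith [(h01 α).2])
  rw [Real.norm_eq_abs] at h2
  refine h2.trans_eq ?_
  norm_num
  ring

variable (hT : S_TRAP) (hO : S_TOEP) (hE : S_EVAL)
include hT hO hE

theorem core {u : ℕ → ℝ} (hu : Sq u) (hMg : Mg u) {I : Type} {l : Filter I} {N : I → ℕ} {m : Mom}
    (hl : l.NeBot) (hlim : IsLim l u N m) (hPD : ∀ M : ℕ, 1 ≤ M → PDs (Gs m M))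
    {δ s e v ε : ℝ} (hδ : 0 < δ) (hδ2 : δ ≤ 1 / 12) (hs : |s| ≤ 1) (he : 0 ≤ e) (he1 : e ≤ 1)
    (hε : 0 < ε) : ∃ r : ℝ, |r| ≤ 6 ∧ (s = 0 → e = 0 → r ≤ -(1 / 2)) ∧ ∃ M0 : ℕ, ∀ M : ℕ, M0 ≤ M →
      ∀ k : ℤ, (∀ α : ℝ, |α| ≤ 1 → |Real.cos (2 * Real.pi * v * α) -
        Real.cos (2 * Real.pi * (k / M) * α)| ≤ e) → ∀ᶠ j in l,
          s * (Gs m M k - sn v ^ 2) ≤ e + 6 * δ + ε +
            r * (M * corO u 2 (N j) (fun _ => 0) (fun _ => 1 / M)) := by
  obtain ⟨χ, h01, h1, hTF⟩ := hT (1 - δ) (1 - δ / 2) (by linarith) (by linarith) (by linarith)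
  have hχ : Continuous χ := by
    have := (hTF 1 0 0).cont
    simpa using this
  have hsupp : ∀ α, 1 - δ / 2 ≤ |α| → χ α = 0 := by
    intro α hα
    have := (hTF 1 0 0).supp α hα
    simpa using this
  have hR := hTF (-1 + e) s v
  set R : ℝ → ℝ := fun α => (-1 + e + s * Real.cos (2 * Real.pi * v * α)) * χ α with hRdef
  have hcos : ∀ x : ℝ, |s * Real.cos x| ≤ 1 := by
    intro x
    rw [abs_mul]
    nlinarith [Real.abs_cos_le_one x, abs_nonneg s, abs_nonneg (Real.cos x)]
  have hb : ∀ α, |(-1 + e + s * Real.cos (2 * Real.pi * v * α))| ≤ 3 := by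
    intro α
    have := abs_le.1 (hcos (2 * Real.pi * v * α))
    rw [abs_le]
    constructor <;> linarith [this.1, this.2]
  have hRb : ∀ α, |R α| ≤ 3 := by
    intro α
    simp only [hRdef, abs_mul]
    have h3 := hb α
    have h4 := h01 α
    rw [abs_of_nonneg h4.1]
    nlinarith [abs_nonneg (-1 + e + s * Real.cos (2 * Real.pi * v * α))]
  have hRint : ∫ α in (-1 : ℝ)..1, R α * (1 - |α|) ≤ -1 + e + s * sn v ^ 2 + 6 * δ := by
    have h2 := cutoff χ (fun α => -1 + e + s * Real.cos (2 * Real.pi * v * α)) δ 3 hχ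
      (by fun_prop) hδ.le (by norm_num) h01 h1 hb
    have h3 : ∫ α in (-1 : ℝ)..1, (-1 + e + s * Real.cos (2 * Real.pi * v * α)) * (1 - |α|) =
        -1 + e + s * sn v ^ 2 := by
      have h4 : ∀ α : ℝ, (-1 + e + s * Real.cos (2 * Real.pi * v * α)) * (1 - |α|) =
          (-1 + e) * (1 - |α|) + s * (Real.cos (2 * Real.pi * v * α) * (1 - |α|)) := by
        intro α
        ring
      simp only [h4]
      rw [intervalIntegral.integral_add
        ((by fun_prop : Continuous fun α : ℝ => (-1 + e) * (1 - |α|)).intervalIntegrable _ _)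
        ((by fun_prop : Continuous fun α : ℝ =>
          s * (Real.cos (2 * Real.pi * v * α) * (1 - |α|))).intervalIntegrable _ _),
        intervalIntegral.integral_const_mul, intervalIntegral.integral_const_mul, int_one, int_cos]
      ring
    rw [h3] at h2
    have h5 := (abs_le.1 h2).2
    simp only [hRdef]
    linarith
  refine ⟨rr R 0, ?_, ?_, ?_⟩
  · unfold rr
    have h2 := intervalIntegral.norm_integral_le_of_norm_le_const (a := (-1 : ℝ)) (b := 1)
      (C := 3) (f := fun α => R α * Real.cos (2 * Real.pi * 0 * α)) (fun α _ => by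
        simp only [mul_zero, zero_mul, Real.cos_zero, mul_one]
        exact hRb α)
    rw [Real.norm_eq_abs] at h2
    refine h2.trans_eq ?_
    norm_num
  · intro hs0 he0
    have h2 := cutoff χ (fun _ => 1) δ 1 hχ continuous_const hδ.le (by norm_num) h01 h1
      (fun _ => by simp)
    have h3 := int_one
    simp only [one_mul] at h2
    rw [h3] at h2
    have h4 := (abs_le.1 h2).1
    have h5 : ∫ α in (-1 : ℝ)..1, χ α * (1 - |α|) ≤ ∫ α in (-1 : ℝ)..1, χ α := by
      apply intervalIntegral.integral_mono_on (by norm_num)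
        ((by fun_prop : Continuous fun α : ℝ => χ α * (1 - |α|)).intervalIntegrable _ _)
        (hχ.intervalIntegrable _ _)
      intro α _
      have := h01 α
      nlinarith [abs_nonneg α]
    have h6 : rr R 0 = -∫ α in (-1 : ℝ)..1, χ α := by
      unfold rr
      rw [← intervalIntegral.integral_neg]
      refine intervalIntegral.integral_congr fun α _ => ?_
      simp [hRdef, hs0, he0]
    rw [h6]
    linarith
  · obtain ⟨M0, hM0⟩ := hE u hu hMg I l N m hl hlim hPD R (1 - δ / 2) (by linarith) (by linarith)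
      hR ε hε
    refine ⟨max M0 3, fun M hM k hk => ?_⟩
    have hM3 : 3 ≤ M := le_trans (le_max_right _ _) hM
    filter_upwards [hM0 M (le_trans (le_max_left _ _) hM)] with j hj
    have hpos := hO (Gs m M) (hPD M (by omega)) M hM3 R (1 - δ / 2) (by linarith) (by linarith)
      hR 1 (-s) k (fun α => by
        have h3 : -s * Real.cos (2 * Real.pi * (k / M) * α) ≥ -1 := by
          have := (abs_le.1 (hcos (2 * Real.pi * (k / M) * α))).2
          linarith
        have h4 := h01 α
        by_cases hα : 1 - δ / 2 ≤ |α|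
        · simp only [hRdef, hsupp α hα, mul_zero, add_zero]
          linarith
        · rw [not_le] at hα
          have h5 := hk α (by linarith)
          have h6 : 0 ≤ s * Real.cos (2 * Real.pi * v * α) -
              s * Real.cos (2 * Real.pi * (k / M) * α) + e := by
            rw [← mul_sub]
            have h7 : |s * (Real.cos (2 * Real.pi * v * α) -
                Real.cos (2 * Real.pi * (k / M) * α))| ≤ e := by
              rw [abs_mul]
              nlinarith [abs_nonneg s, abs_nonneg (Real.cos (2 * Real.pi * v * α) -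
                Real.cos (2 * Real.pi * (k / M) * α))]
            linarith [(abs_le.1 h7).1]
          have e1 : 1 + -s * Real.cos (2 * Real.pi * (k / M) * α) + R α =
              (1 - χ α) * (1 + -s * Real.cos (2 * Real.pi * (k / M) * α)) +
              χ α * (s * Real.cos (2 * Real.pi * v * α) -
              s * Real.cos (2 * Real.pi * (k / M) * α) + e) := by
            simp only [hRdef]
            ring
          rw [e1]
          have h8 : 0 ≤ (1 - χ α) * (1 + -s * Real.cos (2 * Real.pi * (k / M) * α)) :=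
            mul_nonneg (by linarith [h4.2]) (by linarith)
          have h9 := mul_nonneg h4.1 h6
          linarith)
    have h10 := (abs_le.1 hj).2
    nlinarith [hpos, h10, hRint]

theorem t_PAIR2 : S_PAIR2 := by
  intro u hu hMg I l N m hl hlim hPD
  have hc0 : ∀ (M : ℕ) (j : I), 0 ≤ (M : ℝ) * corO u 2 (N j) (fun _ => 0) (fun _ => 1 / M) := by
    intro M j
    unfold corO
    have : 0 ≤ ∫ x in (0 : ℝ)..(N j : ℝ), ({n : Fin 2 → ℕ | Function.Injective n ∧
        ∀ i, 1 ≤ n i ∧ u (n i) - x ∈ Set.Ioc ((fun _ => (0 : ℝ)) i)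
          ((fun _ => 1 / (M : ℝ)) i)}.ncard : ℝ) :=
      intervalIntegral.integral_nonneg (by positivity) fun x _ => by positivity
    positivity
  have part1 : ∀ ε : ℝ, 0 < ε → ∃ M0 : ℕ, ∀ M : ℕ, M0 ≤ M → ∀ᶠ j in l,
      M * corO u 2 (N j) (fun _ => 0) (fun _ => 1 / M) ≤ ε := by
    intro ε hε
    obtain ⟨r, -, hr, M0, hM0⟩ := core hT hO hE hu hMg hl hlim hPD (δ := min (1 / 12) (ε / 24))
      (s := 0) (e := 0) (v := 0) (ε := ε / 4) (by positivity) (min_le_left _ _) (by simp) le_rfl
      (by norm_num) (by positivity)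
    have hr := hr rfl rfl
    refine ⟨M0, fun M hM => ?_⟩
    have h1 := hM0 M hM 0 (fun α _ => by simp)
    filter_upwards [h1] with j hj
    have h2 := hc0 M j
    have h3 := min_le_right (1 / 12 : ℝ) (ε / 24)
    nlinarith
  refine ⟨part1, fun k v hkv => ?_⟩
  rw [Metric.tendsto_atTop]
  intro η hη
  set e : ℝ := min 1 (η / 6) with hedef
  have he : 0 < e := by positivity
  obtain ⟨M1, hM1⟩ := part1 (η / 36) (by positivity)
  obtain ⟨r, hr, -, M2, hM2⟩ := core hT hO hE hu hMg hl hlim hPD (δ := min (1 / 12) (η / 36))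
    (s := 1) (e := e) (v := v) (ε := η / 6) (by positivity) (min_le_left _ _) (by simp) he.le
    (min_le_left _ _) (by positivity)
  obtain ⟨r', hr', -, M3, hM3⟩ := core hT hO hE hu hMg hl hlim hPD (δ := min (1 / 12) (η / 36))
    (s := -1) (e := e) (v := v) (ε := η / 6) (by positivity) (min_le_left _ _) (by simp) he.le
    (min_le_left _ _) (by positivity)
  rw [Metric.tendsto_atTop] at hkv
  obtain ⟨M4, hM4⟩ := hkv (e / 7) (by positivity)
  refine ⟨max (max M1 M2) (max M3 M4), fun M hM => ?_⟩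
  have g1 : M1 ≤ M := (le_max_left _ _).trans ((le_max_left _ _).trans hM)
  have g2 : M2 ≤ M := (le_max_right _ _).trans ((le_max_left _ _).trans hM)
  have g3 : M3 ≤ M := (le_max_left _ _).trans ((le_max_right _ _).trans hM)
  have g4 : M4 ≤ M := (le_max_right _ _).trans ((le_max_right _ _).trans hM)
  have hk : ∀ α : ℝ, |α| ≤ 1 → |Real.cos (2 * Real.pi * v * α) -
      Real.cos (2 * Real.pi * ((k M : ℝ) / M) * α)| ≤ e := by
    intro α hα
    have h1 := hM4 M g4
    rw [Real.dist_eq] at h1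
    have h2 : |Real.cos (2 * Real.pi * v * α) - Real.cos (2 * Real.pi * ((k M : ℝ) / M) * α)| ≤
        |2 * Real.pi * v * α - 2 * Real.pi * ((k M : ℝ) / M) * α| := by
      have := Real.lipschitzWith_cos.dist_le_mul (2 * Real.pi * v * α)
        (2 * Real.pi * ((k M : ℝ) / M) * α)
      rw [Real.dist_eq, Real.dist_eq] at this
      simpa using this
    refine h2.trans ?_
    have h3 : 2 * Real.pi * v * α - 2 * Real.pi * ((k M : ℝ) / M) * α =
        -(2 * Real.pi * (((k M : ℝ) / M - v) * α)) := by ring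
    rw [h3, abs_neg, abs_mul, abs_mul ((k M : ℝ) / M - v) α, abs_of_pos (by positivity)]
    have h4 : |(k M : ℝ) / M - v| * |α| ≤ e / 7 := by
      nlinarith [abs_nonneg ((k M : ℝ) / M - v), abs_nonneg α]
    have h5 : 2 * Real.pi ≤ 7 := by linarith [Real.pi_lt_d2]
    have h6 : 0 ≤ |(k M : ℝ) / M - v| * |α| := by positivity
    nlinarith [Real.pi_pos]
  obtain ⟨j, ⟨hj1, hj2⟩, hj3⟩ := (((hM1 M g1).and (hM2 M g2 (k M) hk)).and
    (hM3 M g3 (k M) hk)).exists
  have h0 := hc0 M j
  have hmin := min_le_right (1 / 12 : ℝ) (η / 36)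
  have hemin : e ≤ η / 6 := min_le_right _ _
  have hrc : r * (M * corO u 2 (N j) (fun _ => 0) (fun _ => 1 / M)) ≤ η / 6 := by
    nlinarith [(abs_le.1 hr).2]
  have hrc' : r' * (M * corO u 2 (N j) (fun _ => 0) (fun _ => 1 / M)) ≤ η / 6 := by
    nlinarith [(abs_le.1 hr').2]
  rw [Real.dist_eq, abs_lt]
  constructor <;> linarith

end Pool.Agent.Y606.SR
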